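import Mathlib
import Pool.Agent.U36.TS.Stm

/-!
# Project TS, package FIN: the shape
-/

set_option autoImplicit false

namespace Pool.Agent.U744.TS.FIN

open Pool.Agent.U36.TS

variable {l : ℕ} [Fact l.Prime]

/-- a coherent sequence of integers has a limit -/
lemma limit (f : ℕ → ℤ) (hf : ∀ m k, (l : ℤ) ^ m ∣ f (m + k) - f m) :
    ∃ a : ℤ_[l], ∀ m, (l : ℤ_[l]) ^ m ∣ (f m : ℤ_[l]) - a := by
  have hnorm : ∀ m k, ‖((f (m + k) : ℤ) : ℤ_[l]) - (f m : ℤ_[l])‖ ≤ (l : ℝ) ^ (-m : ℤ) := by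
    intro m k
    rw [PadicInt.norm_le_pow_iff_mem_span_pow, Ideal.mem_span_singleton]
    have := (PadicInt.pow_p_dvd_int_iff (p := l) m (f (m + k) - f m)).2 (by exact_mod_cast hf m k)
    rwa [Int.cast_sub] at this
  have hl : (1 : ℝ) < l := by exact_mod_cast (Fact.out : l.Prime).one_lt
  have hlim : Filter.Tendsto (fun m : ℕ => (l : ℝ) ^ (-m : ℤ)) Filter.atTop (nhds 0) := by
    have h1 : (fun m : ℕ => (l : ℝ) ^ (-m : ℤ)) = fun m : ℕ => ((l : ℝ)⁻¹) ^ m := by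
      funext m
      rw [zpow_neg, zpow_natCast, inv_pow]
    rw [h1]
    exact tendsto_pow_atTop_nhds_zero_of_lt_one (by positivity) (inv_lt_one_of_one_lt₀ hl)
  have hc : CauchySeq (fun m => ((f m : ℤ) : ℤ_[l])) := by
    refine cauchySeq_of_le_tendsto_0' (fun m : ℕ => (l : ℝ) ^ (-m : ℤ)) (fun m n hmn => ?_) hlim
    obtain ⟨k, rfl⟩ := Nat.exists_eq_add_of_le hmn
    rw [dist_comm, dist_eq_norm]
    exact hnorm m k
  obtain ⟨a, ha⟩ := cauchySeq_tendsto_of_complete hc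
  refine ⟨a, fun m => ?_⟩
  rw [← Ideal.mem_span_singleton, ← PadicInt.norm_le_pow_iff_mem_span_pow]
  have h1 : Filter.Tendsto (fun n => ‖((f m : ℤ) : ℤ_[l]) - (f n : ℤ_[l])‖) Filter.atTop
      (nhds ‖((f m : ℤ) : ℤ_[l]) - a‖) := (tendsto_const_nhds.sub ha).norm
  refine le_of_tendsto h1 ?_
  filter_upwards [Filter.eventually_ge_atTop m] with n hn
  obtain ⟨k, rfl⟩ := Nat.exists_eq_add_of_le hn
  rw [norm_sub_rev]
  exact hnorm m k

lemma eq_zero_of_dvd {x : ℤ_[l]} (N : ℕ) (h : ∀ n, N ≤ n → (l : ℤ_[l]) ^ n ∣ x) : x = 0 := by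
  by_contra hx
  have h1 := h (max N (x.valuation + 1)) (le_max_left _ _)
  rw [← Ideal.mem_span_singleton, PadicInt.mem_span_pow_iff_le_valuation x hx] at h1
  have h2 := le_max_right N (x.valuation + 1)
  omega

lemma exists_int (x : ℤ_[l]) (n : ℕ) : ∃ j : ℤ, (l : ℤ_[l]) ^ n ∣ (j : ℤ_[l]) - x := by
  refine ⟨(x.appr n : ℤ), ?_⟩
  have h := PadicInt.appr_spec n x
  rw [Ideal.mem_span_singleton] at h
  have h2 := (dvd_neg.2 h)
  rw [neg_sub] at h2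
  push_cast
  exact h2

lemma core (hORB : S_ORB) (hKEY : S_KEY) {M : Type} [Field M] {q : ℕ} {th : ℕ → M} {T Ph : M ≃+* M}
    {U : Set M} (h : Tame M l q th T Ph U) {z : M} (hz : z ∈ U) (hz1 : 1 - z ∈ U) (hT : T z = z)
    (hPh : Ph z = z) {a b : ℤ_[l]}
    (ha : ∀ (m : ℕ) (j : ℤ), (l : ℤ_[l]) ^ m ∣ (j : ℤ_[l]) - a → Ex T th l m z j)
    (hb : ∀ (m : ℕ) (j : ℤ), (l : ℤ_[l]) ^ m ∣ (j : ℤ_[l]) - b → Ex T th l m (1 - z) j)
    (ha0 : a ≠ 0) (hb0 : b ≠ 0) (hv : a.valuation ≤ b.valuation) : a = b := by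
  classical
  have hlp : l.Prime := Fact.out
  have hlZ : Prime (l : ℤ) := Nat.prime_iff_prime_int.1 hlp
  obtain ⟨r, hr⟩ : ∃ r, r = a.valuation := ⟨_, rfl⟩
  obtain ⟨u, hu⟩ : ∃ u : ℤ_[l]ˣ, a = u * (l : ℤ_[l]) ^ r :=
    ⟨PadicInt.unitCoeff ha0, by rw [hr]; exact PadicInt.unitCoeff_spec ha0⟩
  choose α hα using fun i : ℕ => exists_int (l := l) (u : ℤ_[l]) (i + 1)
  have hαl : ∀ i, ¬ (l : ℤ) ∣ α i := by
    intro i hd
    have h1 : (l : ℤ_[l]) ∣ (α i : ℤ_[l]) := by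
      obtain ⟨c, hc⟩ := hd
      exact ⟨(c : ℤ_[l]), by rw [hc]; push_cast; rfl⟩
    have h2 : (l : ℤ_[l]) ∣ (α i : ℤ_[l]) - u := (dvd_pow_self _ (by omega)).trans (hα i)
    have h3 : (l : ℤ_[l]) ∣ (u : ℤ_[l]) := by
      have := dvd_sub h1 h2
      rwa [sub_sub_cancel] at this
    exact PadicInt.prime_p.not_isUnit (isUnit_of_dvd_unit h3 u.isUnit)
  have hαa : ∀ i, (l : ℤ_[l]) ^ (i + 1) ∣ (((l : ℤ) ^ r * α i : ℤ) : ℤ_[l]) - a := by
    intro i
    have h1 : (((l : ℤ) ^ r * α i : ℤ) : ℤ_[l]) - a = (l : ℤ_[l]) ^ r * ((α i : ℤ_[l]) - u) := by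
      rw [hu]; push_cast; ring
    rw [h1]
    exact Dvd.dvd.mul_left (hα i) _
  have hαEx : ∀ i, Ex T th l i z ((l : ℤ) ^ r * α i) := fun i =>
    ha i _ ((pow_dvd_pow _ (Nat.le_succ i)).trans (hαa i))
  -- the dichotomy at level `m`
  have key : ∀ m, 2 * r + 1 ≤ m → (l : ℤ_[l]) ^ (m - r) ∣ b ∨ (l : ℤ_[l]) ^ (m - r) ∣ a - b := by
    intro m hm
    obtain ⟨y, hy⟩ := h.root z hz m
    obtain ⟨β, hβ⟩ := exists_int (l := l) b m
    obtain ⟨J, hJ1, hJ2⟩ := hORB M l q th T Ph U h r m m (α m) β z y (by omega) (hαl m) hz hz1 hT hy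
      (hαEx m) (hb m β hβ)
    have hJ3 : ∀ i < l ^ r, (l : ℤ) ^ (m - r) ∣ J i ∨ (l : ℤ) ^ (m - r) ∣ J i - α m := by
      intro i hi
      refine hKEY M l q th T Ph U h r m m α (J i) z (th m ^ i * y) (by omega) le_rfl hαl hz hz1 hT
        hPh ?_ hαEx (hJ1 i hi)
      rw [mul_pow, hy, ← pow_mul, mul_comm i, pow_mul, (h.prim m).pow_eq_one, one_pow, one_mul]
    obtain ⟨κ, hκ⟩ : ∃ κ : ℕ, κ = ((Finset.range (l ^ r)).filter fun i =>
      ¬ (l : ℤ) ^ (m - r) ∣ J i).card := ⟨_, rfl⟩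
    have h1 : (l : ℤ) ^ (m - r) ∣ ∑ i ∈ Finset.range (l ^ r), J i - κ * α m := by
      have h2 : (κ : ℤ) * α m = ∑ i ∈ Finset.range (l ^ r),
          if ¬ (l : ℤ) ^ (m - r) ∣ J i then α m else 0 := by
        rw [← Finset.sum_filter, Finset.sum_const, hκ, nsmul_eq_mul]
      rw [h2, ← Finset.sum_sub_distrib]
      apply Finset.dvd_sum
      intro i hi
      rw [Finset.mem_range] at hi
      by_cases h3 : (l : ℤ) ^ (m - r) ∣ J i
      · rw [if_neg (not_not.2 h3), sub_zero]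
        exact h3
      · rw [if_pos h3]
        exact (hJ3 i hi).resolve_left h3
    have h2 : (l : ℤ) ^ (m - r) ∣ β - κ * α m := by
      have h3 := dvd_add ((pow_dvd_pow (l : ℤ) (Nat.sub_le m r)).trans hJ2) h1
      rwa [sub_add_sub_cancel] at h3
    have h3 : (l : ℤ) ^ r ∣ β := by
      have h4 : (l : ℤ_[l]) ^ r ∣ b := by
        rw [← Ideal.mem_span_singleton, PadicInt.mem_span_pow_iff_le_valuation b hb0]
        omega
      have h5 : (l : ℤ_[l]) ^ r ∣ (β : ℤ_[l]) := by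
        have h6 := dvd_add ((pow_dvd_pow _ (by omega : r ≤ m)).trans hβ) h4
        rwa [sub_add_cancel] at h6
      exact_mod_cast (PadicInt.pow_p_dvd_int_iff (p := l) r β).1 h5
    have h4 : (l : ℤ) ^ r ∣ κ * α m := by
      have h5 := dvd_sub h3 ((pow_dvd_pow (l : ℤ) (by omega : r ≤ m - r)).trans h2)
      rwa [sub_sub_cancel] at h5
    have h5 : l ^ r ∣ κ := by
      have h6 := hlZ.pow_dvd_of_dvd_mul_right r (hαl m) h4
      exact_mod_cast h6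
    have h6 : κ ≤ l ^ r := by
      rw [hκ]
      exact (Finset.card_filter_le _ _).trans (by rw [Finset.card_range])
    have hlr : 0 < l ^ r := pow_pos hlp.pos r
    have hβ' : (l : ℤ_[l]) ^ (m - r) ∣ (β : ℤ_[l]) - b := (pow_dvd_pow _ (Nat.sub_le m r)).trans hβ
    have h2' : (l : ℤ_[l]) ^ (m - r) ∣ (β : ℤ_[l]) - κ * α m := by
      have h7 := (PadicInt.pow_p_dvd_int_iff (p := l) (m - r) (β - κ * α m)).2 (by exact_mod_cast h2)
      push_cast at h7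
      exact h7
    rcases Nat.eq_zero_or_pos κ with h7 | h7
    · left
      rw [h7, Nat.cast_zero, zero_mul, sub_zero] at h2'
      have h8 := dvd_sub h2' hβ'
      rwa [sub_sub_cancel] at h8
    · right
      have h8 : κ = l ^ r := le_antisymm h6 (Nat.le_of_dvd h7 h5)
      have h9 : (l : ℤ_[l]) ^ (m - r) ∣ (((l : ℤ) ^ r * α m : ℤ) : ℤ_[l]) - a :=
        (pow_dvd_pow _ (by omega)).trans (hαa m)
      rw [h8] at h2'
      push_cast at h2' h9
      have h10 := dvd_sub (dvd_sub hβ' h2') h9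
      have e : (β : ℤ_[l]) - b - ((β : ℤ_[l]) - (l : ℤ_[l]) ^ r * (α m : ℤ_[l])) -
          ((l : ℤ_[l]) ^ r * (α m : ℤ_[l]) - a) = a - b := by ring
      rwa [e] at h10
  have hfin : a - b = 0 := by
    refine eq_zero_of_dvd (r + 1 + b.valuation) fun n hn => ?_
    have h1 := key (n + r) (by omega)
    rw [Nat.add_sub_cancel] at h1
    refine h1.resolve_left fun h2 => ?_
    rw [← Ideal.mem_span_singleton, PadicInt.mem_span_pow_iff_le_valuation b hb0] at h2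
    omega
  exact sub_eq_zero.1 hfin

/-- the exponents of an element fixed by `T` -/
lemma expo (hEX : S_EX) {M : Type} [Field M] {q : ℕ} {th : ℕ → M} {T Ph : M ≃+* M}
    {U : Set M} (h : Tame M l q th T Ph U) {z : M} (hz : z ∈ U) (hT : T z = z) :
    ∃ a : ℤ_[l], ∀ (m : ℕ) (j : ℤ), (l : ℤ_[l]) ^ m ∣ (j : ℤ_[l]) - a → Ex T th l m z j := by
  obtain ⟨e1, e2, e3, -, -, e6⟩ := hEX M l q th T Ph U h T h.T_fix
  choose f hf using e1 z hz hT
  obtain ⟨a, ha⟩ := limit (l := l) f fun m k =>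
    e2 z hz m _ _ (e6 z hz m k _ (hf (m + k))) (hf m)
  refine ⟨a, fun m j hj => ?_⟩
  have h1 : (l : ℤ) ^ m ∣ f m - j := by
    have h2 := dvd_sub (ha m) hj
    have h3 : (l : ℤ_[l]) ^ m ∣ ((f m - j : ℤ) : ℤ_[l]) := by
      push_cast
      have e : (f m : ℤ_[l]) - a - ((j : ℤ_[l]) - a) = (f m : ℤ_[l]) - j := by ring
      rwa [e] at h2
    exact_mod_cast (PadicInt.pow_p_dvd_int_iff (p := l) m (f m - j)).1 h3
  exact e3 z hz m _ _ h1 (hf m)

theorem t_FIN (hEX : S_EX) (hORB : S_ORB) (hKEY : S_KEY) : S_FIN := by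
  intro M _ l q _ th T Ph U h z hz hz1 hT hPh
  have hT1 : T (1 - z) = 1 - z := by rw [map_sub, map_one, hT]
  have hPh1 : Ph (1 - z) = 1 - z := by rw [map_sub, map_one, hPh]
  obtain ⟨a, ha⟩ := expo hEX h hz hT
  obtain ⟨b, hb⟩ := expo hEX h hz1 hT1
  refine ⟨a, b, ?_, ha, hb⟩
  by_cases ha0 : a = 0
  · exact Or.inl ha0
  by_cases hb0 : b = 0
  · exact Or.inr (Or.inl hb0)
  refine Or.inr (Or.inr ?_)
  rcases le_total a.valuation b.valuation with hv | hv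
  · exact core hORB hKEY h hz hz1 hT hPh ha hb ha0 hb0 hv
  · have e : 1 - (1 - z) = z := by ring
    exact (core hORB hKEY h hz1 (by rw [e]; exact hz) hT1 hPh1 hb (by rw [e]; exact ha) hb0 ha0 hv).symm

end Pool.Agent.U744.TS.FIN

theorem Pool.Agent.U36.TS.t_FIN (hEX : Pool.Agent.U36.TS.S_EX) (hORB : Pool.Agent.U36.TS.S_ORB)
    (hKEY : Pool.Agent.U36.TS.S_KEY) : Pool.Agent.U36.TS.S_FIN :=
  Pool.Agent.U744.TS.FIN.t_FIN hEX hORB hKEY
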